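import Pool.Agent.W558.WA.Stms
import Pool.Agent.W193.WD.F1

set_option autoImplicit false

/-!
AS-A1: the blowup of a point on one component, at a point on the new component only.
-/

universe u

namespace Pool.Agent.W337.WA.A1

open Pool.Agent.W558 Pool.Agent.W193.WD.F1

section

variable {k E : Type u} [Field k] [Field E] [Algebra k E] {O O' : Subalgebra k E} {x y : E}

lemma exists_rs {b : Set E} {u v X f : E} {ρ : ℕ}
    (h1 : ∀ θ ∈ Th O b, θ f * X ∈ O)
    (h2 : ∃ θ ∈ Th O b, ¬ Ox O u v (ρ + 1) (θ f * X)) :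
    ∃ c, c ≤ ρ ∧ Rs O b u v X f c := by
  classical
  have hex : ∃ n, ∃ θ ∈ Th O b, ¬ Ox O u v n (θ f * X) := ⟨ρ + 1, h2⟩
  have hspec := Nat.find_spec hex
  have hle := Nat.find_min' hex h2
  have h0 : Nat.find hex ≠ 0 := by
    intro h0
    rw [h0] at hspec
    obtain ⟨θ, hθ, h⟩ := hspec
    exact h (Ox_zero (h1 θ hθ))
  refine ⟨Nat.find hex - 1, by omega, ?_, ?_⟩
  · intro θ hθ
    by_contra hcon
    exact Nat.find_min hex (m := Nat.find hex - 1) (by omega) ⟨θ, hθ, hcon⟩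
  · rw [Nat.sub_add_cancel (by omega)]
    exact hspec

lemma der_res {θ : Derivation k E E} {w F Q : E} (n : ℕ) (hx : θ x = w * x)
    (hQ : F * x ^ n = Q) : θ F * x ^ n = θ Q - n * w * Q := by
  subst hQ
  rw [θ.leibniz, Derivation.leibniz_pow, hx]
  simp only [smul_eq_mul, nsmul_eq_mul]
  rcases Nat.eq_zero_or_pos n with h | h
  · subst h; simp
  · obtain ⟨m, rfl⟩ : ∃ m, n = m + 1 := ⟨n - 1, by omega⟩
    rw [Nat.add_sub_cancel, pow_succ]
    ring

lemma natCast_unit {n : ℕ} (h : (n : E) ≠ 0) : ¬ NU O (n : E) := by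
  refine not_NU_of_inv h ?_
  have h1 : (n : E)⁻¹ = algebraMap k E ((n : k)⁻¹) := by rw [map_inv₀, map_natCast]
  rw [h1]
  exact O.algebraMap_mem _

lemma Ox_x {z : E} (hz : z ∈ O) (j : ℕ) : Ox O x y j (x * z) :=
  ⟨z, hz, 0, O.zero_mem, by ring⟩

lemma Ox_neg {j : ℕ} {z : E} (hz : Ox O x y j z) : Ox O x y j (-z) := by
  have := Ox_mul (O.neg_mem O.one_mem) hz
  rwa [neg_one_mul] at this

lemma Ox_sub {j : ℕ} {z w : E} (hz : Ox O x y j z) (hw : Ox O x y j w) : Ox O x y j (z - w) := by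
  rw [sub_eq_add_neg]; exact Ox_add hz (Ox_neg hw)

end

theorem main (hder : WD_der.{u}) (hthb : WD_thb.{u}) (hod : WD_od.{u}) (hqp : WD_qp.{u})
    (ht : WA_t.{u}) (hri : WA_ri.{u}) (hu : WA_u.{u}) : WA_a1.{u} := by
  intro p hpf k E _ _ _ _ hcp htr O O' x y y' f N c N' c' hO hO' hP hQ hP' hD hN hc hD'
  have hcE : CharP E p := charP_of_injective_algebraMap (algebraMap k E).injective p
  obtain ⟨D1, D2, hD1, hD2, hD1x, hD1y, hD2x, hD2y, hbas⟩ := hder k E htr O x y hO hP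
  obtain ⟨hth, -, hthO'⟩ := hthb k E htr O x y D1 D2 hO hP hD1 hD2 hD1x hD1y hD2x hD2y hbas
  obtain ⟨hthQ, -, -⟩ := hthO' O' hO'
  have hth' := hthQ hQ
  have hO2 := hO
  obtain ⟨A, hA, hpt⟩ := hO2
  have hOloc := hpt.loc
  have hx0 : x ≠ 0 := hP.u0
  have hxO : x ∈ O := hP.pu.1
  have hyO : y ∈ O := hP.pv.1
  obtain ⟨a, haO, -⟩ := id hD
  obtain ⟨ρ, g, a1, hρ, hg, -, hsum, halt⟩ :=
    ht p k E htr O x y hO hP (f - (a ^ p - a)) N 0 (by rw [pow_zero, mul_one]; exact haO)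
  rw [pow_zero, mul_one] at hsum
  simp only [Nat.add_zero] at hρ halt
  set F : E := f - ((a + a1) ^ p - (a + a1)) with hF
  have hF1 : f - (a ^ p - a) - (a1 ^ p - a1) = F := by
    rw [hF, add_pow_char]; ring
  rw [hF1] at hsum
  -- the sum
  set A0 : E := ∑ j ∈ Finset.range ρ, g j * x ^ (ρ - 1 - j) * y ^ j with hA0
  have hA0O : A0 ∈ O := O.sum_mem fun j _ =>
    O.mul_mem (O.mul_mem (hg j) (O.pow_mem hxO _)) (O.pow_mem hyO _)
  have hq : F * x ^ N = x * A0 + g ρ * y ^ ρ := by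
    rw [hsum, Finset.sum_range_succ, Nat.sub_self, pow_zero, mul_one, hA0, Finset.mul_sum]
    congr 1
    refine Finset.sum_congr rfl fun j hj => ?_
    have hj' := Finset.mem_range.1 hj
    have h1 : ρ - j = (ρ - 1 - j) + 1 := by omega
    rw [h1, pow_succ]
    ring
  have hqO : F * x ^ N ∈ O := by
    rw [hq]
    exact O.add_mem (O.mul_mem hxO hA0O) (O.mul_mem (hg _) (O.pow_mem hyO _))
  have hRs : Rs O (uo O x) x y (x ^ N) F c :=
    (hri p k E htr O x y f hO hP).1 N c hD (a + a1) hqO hN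
  -- the residuals at `O`
  have hr1 : (x • D1 : Derivation k E E) F * x ^ N =
      x * D1 (F * x ^ N) - N * (F * x ^ N) := by
    have h1 := der_res (θ := (x • D1 : Derivation k E E)) (x := x) (w := 1) (F := F) N
      (by simp [hD1x]) rfl
    rw [h1, mul_one]
    simp only [Derivation.smul_apply, smul_eq_mul]
  have hr2 : D2 F * x ^ N = D2 (F * x ^ N) := by
    have h1 := der_res (θ := D2) (x := x) (w := 0) (F := F) N (by simp [hD2x]) rfl
    rw [h1, mul_zero, zero_mul, sub_zero]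
  have hF1θ : (x • D1 : Derivation k E E) ∈ Th O (uo O x) :=
    (hth _).2 ⟨1, O.one_mem, 0, O.zero_mem, by simp⟩
  -- `ρ` is positive
  have hρ1 : 1 ≤ ρ := by
    by_contra hcon
    have hρ0 : ρ = 0 := by omega
    subst hρ0
    rcases halt with h | ⟨j, hj, hgj, hdiv⟩
    · omega
    · have hj0 : j = 0 := by omega
      subst hj0
      have hpN : ¬ p ∣ N := by
        intro h
        apply hdiv
        constructor
        · have h1 : (p : ℤ) ∣ (N : ℤ) := Int.natCast_dvd_natCast.2 h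
          simpa using h1
        · simp
      have hN0 : (N : E) ≠ 0 := by
        rw [Ne, CharP.cast_eq_zero_iff E p N]
        exact hpN
      have hq0 : F * x ^ N = g 0 := by rw [hq, hA0]; simp
      have h1 := hRs.1 _ hF1θ
      rw [hr1, hq0] at h1
      have h2 : NU O (x * D1 (g 0) - N * g 0) := Ox_nu hOloc hP.pu hP.pv hc h1
      have h3 : NU O (x * D1 (g 0)) := hP.pu.mul_right (hD1 _ (hg 0))
      have h4 : (N : E) * g 0 = x * D1 (g 0) + -(x * D1 (g 0) - N * g 0) := by ring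
      have h5 : NU O ((N : E) * g 0) := by rw [h4]; exact hOloc _ _ h3 h2.neg
      exact not_NU_mul (O.natCast_mem N) (hg 0) (natCast_unit hN0) hgj h5
  -- the function at `O'`
  have hsO' : y / x ∈ O' := by rw [div_eq_mul_inv]; exact hQ.div y hP.pv
  have hxO' : x ∈ O' := hP'.pu.1
  set Q : E := ∑ j ∈ Finset.range (ρ + 1), g j * (y / x) ^ j with hQdef
  have hQO' : Q ∈ O' := O'.sum_mem fun j _ => O'.mul_mem (hQ.le (hg j)) (O'.pow_mem hsO' _)
  have hFQ : F * x ^ (N - ρ) = Q := by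
    have h1 : F * x ^ (N - ρ) * x ^ ρ = Q * x ^ ρ := by
      rw [mul_assoc, ← pow_add, Nat.sub_add_cancel hρ, hsum, sum_eq hx0, mul_comm]
    exact mul_right_cancel₀ (pow_ne_zero _ hx0) h1
  have hNle : N' ≤ N - ρ :=
    (hri p k E htr O' x y' f hO' hP').2.2.1 N' c' hD' (a + a1) (N - ρ) (by rw [← hF, hFQ]; exact hQO')
  refine ⟨by omega, fun hN' => ?_⟩
  have hρN : ρ < N := by omega
  obtain ⟨j0, hj0, hgj0, hdiv⟩ : ∃ j, j ≤ ρ ∧ ¬ NU O (g j) ∧
      ¬ ((p : ℤ) ∣ (ρ : ℤ) - j - N ∧ (p : ℤ) ∣ (j : ℤ) - (0 : ℕ)) := by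
    rcases halt with h | h
    · omega
    · exact h
  set n : ℕ := N - ρ with hn
  have hn1 : 1 ≤ n := by omega
  -- derivations at `O'`
  have hθ1 : (x • D1 + y • D2 : Derivation k E E) ∈ Th O' (uo O' x) :=
    (hth' _).2 ⟨1, O'.one_mem, 0, O'.zero_mem, by simp⟩
  have hθ2 : (x • D2 : Derivation k E E) ∈ Th O' (uo O' x) :=
    (hth' _).2 ⟨0, O'.zero_mem, 1, O'.one_mem, by simp⟩
  have hθ1x : (x • D1 + y • D2 : Derivation k E E) x = 1 * x := by
    simp only [Derivation.add_apply, Derivation.smul_apply, smul_eq_mul, hD1x, hD2x]; ring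
  have hθ2x : (x • D2 : Derivation k E E) x = 0 * x := by
    simp only [Derivation.smul_apply, smul_eq_mul, hD2x]; ring
  have hθ1y : (x • D1 + y • D2 : Derivation k E E) y = y := by
    simp only [Derivation.add_apply, Derivation.smul_apply, smul_eq_mul, hD1y, hD2y]; ring
  have hθ2y : (x • D2 : Derivation k E E) y = x := by
    simp only [Derivation.smul_apply, smul_eq_mul, hD2y]; ring
  have hθ1s : (x • D1 + y • D2 : Derivation k E E) (y / x) = 0 := by
    have h1 : y = (y / x) * x := by field_simp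
    have h2 := congrArg (x • D1 + y • D2 : Derivation k E E) h1
    rw [Derivation.leibniz, hθ1x, hθ1y, smul_eq_mul, smul_eq_mul, one_mul] at h2
    have h3 : (y / x) * x = y := by field_simp
    rw [h3] at h2
    have h4 : x * (x • D1 + y • D2 : Derivation k E E) (y / x) = 0 := by
      linear_combination -h2
    exact (mul_eq_zero.1 h4).resolve_left hx0
  have hθ2s : (x • D2 : Derivation k E E) (y / x) = 1 := by
    have h1 : y = (y / x) * x := by field_simp
    have h2 := congrArg (x • D2 : Derivation k E E) h1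
    rw [Derivation.leibniz, hθ2x, hθ2y, smul_eq_mul, smul_eq_mul, zero_mul, mul_zero,
      zero_add] at h2
    have h4 : x * (x • D2 : Derivation k E E) (y / x) = x * 1 := by
      linear_combination -h2
    exact mul_left_cancel₀ hx0 h4
  have hθ1g : ∀ z ∈ O, ∃ w ∈ O', (x • D1 + y • D2 : Derivation k E E) z = x * w := by
    intro z hz
    refine ⟨D1 z + (y / x) * D2 z, O'.add_mem (hQ.le (hD1 _ hz))
      (O'.mul_mem hsO' (hQ.le (hD2 _ hz))), ?_⟩
    simp only [Derivation.add_apply, Derivation.smul_apply, smul_eq_mul]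
    field_simp
  have hθ1Q : ∃ w ∈ O', (x • D1 + y • D2 : Derivation k E E) Q = x * w := by
    choose! w hw hw2 using hθ1g
    refine ⟨∑ j ∈ Finset.range (ρ + 1), w (g j) * (y / x) ^ j,
      O'.sum_mem fun j _ => O'.mul_mem (hw _ (hg j)) (O'.pow_mem hsO' _), ?_⟩
    rw [hQdef, map_sum, Finset.mul_sum]
    refine Finset.sum_congr rfl fun j _ => ?_
    rw [Derivation.leibniz, Derivation.leibniz_pow, hθ1s, hw2 _ (hg j)]
    simp only [smul_eq_mul, smul_zero, mul_zero, zero_add]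
    ring
  have hθ2Q : ∃ w ∈ O', (x • D2 : Derivation k E E) Q = x * w +
      ∑ j ∈ Finset.range (ρ - 1 + 1), ((j + 1 : ℕ) * g (j + 1)) * (y / x) ^ j := by
    refine ⟨∑ j ∈ Finset.range (ρ + 1), D2 (g j) * (y / x) ^ j,
      O'.sum_mem fun j _ => O'.mul_mem (hQ.le (hD2 _ (hg j))) (O'.pow_mem hsO' _), ?_⟩
    have h1 : ρ - 1 + 1 = ρ := by omega
    have h2 : ∑ j ∈ Finset.range (ρ + 1), (j : E) * g j * (y / x) ^ (j - 1) =
        ∑ j ∈ Finset.range ρ, ((j + 1 : ℕ) * g (j + 1)) * (y / x) ^ j := by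
      rw [Finset.sum_range_succ']
      simp
    rw [h1, ← h2, hQdef, map_sum, Finset.mul_sum, ← Finset.sum_add_distrib]
    refine Finset.sum_congr rfl fun j _ => ?_
    rw [Derivation.leibniz, Derivation.leibniz_pow, hθ2s]
    simp only [Derivation.smul_apply, smul_eq_mul, nsmul_eq_mul, mul_one]
    ring
  obtain ⟨w1, hw1, hw1Q⟩ := hθ1Q
  obtain ⟨w2, hw2, hw2Q⟩ := hθ2Q
  have hv1 : (x • D1 + y • D2 : Derivation k E E) F * x ^ n = x * w1 - n * Q := by
    rw [der_res n hθ1x hFQ, hw1Q, mul_one]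
  have hv2 : (x • D2 : Derivation k E E) F * x ^ n = x * w2 +
      ∑ j ∈ Finset.range (ρ - 1 + 1), ((j + 1 : ℕ) * g (j + 1)) * (y / x) ^ j := by
    rw [der_res n hθ2x hFQ, hw2Q, mul_zero, zero_mul, sub_zero]
  have hmem : ∀ θ ∈ Th O' (uo O' x), θ F * x ^ n ∈ O' := by
    intro θ hθ
    obtain ⟨w, hw, hwx⟩ := hθ.2 x ⟨1, O'.one_mem, one_ne_zero, by rw [inv_one]; exact O'.one_mem,
      by rw [one_mul]⟩
    rw [der_res n hwx hFQ]
    exact O'.sub_mem (hθ.1 _ hQO') (O'.mul_mem (O'.mul_mem (O'.natCast_mem n) hw) hQO')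
  -- the two lower bounds
  have hA2 : ∀ j1, 1 ≤ j1 → j1 ≤ ρ → ¬ NU O ((j1 : E) * g j1) →
      ¬ Ox O' x y' ρ ((x • D2 : Derivation k E E) F * x ^ n) := by
    intro j1 hj1 hj1' hu1 hox
    rw [hv2] at hox
    have h1 := hqp k E htr O O' x y y' hO hO' hP hQ hP' (ρ - 1)
      (fun j => ((j + 1 : ℕ) : E) * g (j + 1))
      (fun j => O.mul_mem (O.natCast_mem _) (hg _))
      ⟨j1 - 1, by omega, by rw [show j1 - 1 + 1 = j1 by omega]; exact hu1⟩
    apply h1
    have h2 := Ox_sub hox (Ox_x (y := y') hw2 ρ)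
    rw [add_sub_cancel_left] at h2
    rwa [show ρ - 1 + 1 = ρ by omega] at h2 ⊢
  have hA1 : ∃ θ ∈ Th O' (uo O' x), ¬ Ox O' x y' (ρ + 1) (θ F * x ^ n) := by
    by_cases hpn : p ∣ n
    · have hpj : ¬ p ∣ j0 := by
        intro h
        apply hdiv
        have h1 : (p : ℤ) ∣ (j0 : ℤ) := Int.natCast_dvd_natCast.2 h
        have h2 : (p : ℤ) ∣ (n : ℤ) := Int.natCast_dvd_natCast.2 hpn
        have h3 : (n : ℤ) = (N : ℤ) - ρ := by omega
        constructor
        · have h4 : (ρ : ℤ) - j0 - N = -(n + j0) := by omega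
          rw [h4]
          exact (dvd_neg).2 (dvd_add h2 h1)
        · simpa using h1
      have hj1 : 1 ≤ j0 := by
        by_contra hcon
        have : j0 = 0 := by omega
        rw [this] at hpj
        exact hpj (dvd_zero p)
      refine ⟨_, hθ2, fun hox => ?_⟩
      refine hA2 j0 hj1 hj0 ?_ (Ox_mono hP'.pv.1 (Nat.le_succ ρ) hox)
      have h0 : (j0 : E) ≠ 0 := by
        rw [Ne, CharP.cast_eq_zero_iff E p j0]; exact hpj
      exact not_NU_mul (O.natCast_mem _) (hg _) (natCast_unit h0) hgj0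
    · have h0 : (n : E) ≠ 0 := by
        rw [Ne, CharP.cast_eq_zero_iff E p n]; exact hpn
      refine ⟨_, hθ1, fun hox => ?_⟩
      rw [hv1] at hox
      have h1 := hqp k E htr O O' x y y' hO hO' hP hQ hP' ρ
        (fun j => (n : E) * g j) (fun j => O.mul_mem (O.natCast_mem _) (hg _))
        ⟨j0, hj0, not_NU_mul (O.natCast_mem _) (hg _) (natCast_unit h0) hgj0⟩
      apply h1
      have h2 := Ox_sub (Ox_x (y := y') hw1 (ρ + 1)) hox
      have h3 : x * w1 - (x * w1 - n * Q) =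
          ∑ j ∈ Finset.range (ρ + 1), (n : E) * g j * (y / x) ^ j := by
        rw [hQdef, sub_sub_cancel, Finset.mul_sum]
        exact Finset.sum_congr rfl fun j _ => by ring
      rwa [h3] at h2
  obtain ⟨c'', hc'', hRs'⟩ := exists_rs hmem hA1
  have hDN : DN p O' x y' f n c'' := ⟨a + a1, by rw [← hF, hFQ]; exact hQO', fun _ => hRs'⟩
  obtain ⟨hnN, hcc⟩ := (hu p k E htr O' x y' f hO' hP').1 _ _ _ _ hDN hD'
  have hcc' := hcc hn1
  subst hcc'
  -- comparison with `c`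
  rcases le_or_gt ρ c with h | hcρ
  · exact hc''.trans h
  have hD2q : D2 (F * x ^ N) = x * D2 A0 + D2 (g ρ) * y ^ ρ + (ρ * g ρ) * y ^ (ρ - 1) := by
    rw [hq, map_add, Derivation.leibniz, Derivation.leibniz, Derivation.leibniz_pow, hD2x, hD2y]
    simp only [smul_eq_mul, nsmul_eq_mul, mul_zero, mul_one, add_zero]
    ring
  have hres : ∀ l ≤ ρ, Ox O x y l (D2 F * x ^ N) → ∀ θ ∈ Th O (uo O x),
      Ox O x y l (θ F * x ^ N) := by
    intro l hl h1 θ hθ
    obtain ⟨α, hα, β, hβ, rfl⟩ := (hth θ).1 hθ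
    have h2 : (α • (x • D1) + β • D2 : Derivation k E E) F * x ^ N =
        α * ((x • D1 : Derivation k E E) F * x ^ N) + β * (D2 F * x ^ N) := by
      simp only [Derivation.add_apply, Derivation.smul_apply, smul_eq_mul]; ring
    rw [h2]
    refine Ox_add (Ox_mul hα ?_) (Ox_mul hβ h1)
    rw [hr1]
    refine Ox_sub (Ox_x (hD1 _ hqO) l) (Ox_mul (O.natCast_mem N) ?_)
    refine Ox_mono hyO hl ?_
    exact ⟨A0, hA0O, g ρ, hg ρ, by rw [hq]; ring⟩
  obtain ⟨θ0, hθ0, hnot⟩ := hRs.2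
  have hcρ' : ρ = c + 1 := by
    by_contra hne
    have hlt : c + 1 ≤ ρ - 1 := by omega
    refine hnot (hres (c + 1) (by omega) ?_ θ0 hθ0)
    rw [hr2, hD2q]
    refine Ox_mono hyO hlt ?_
    refine ⟨D2 A0, hD2 _ hA0O, D2 (g ρ) * y + ρ * g ρ, O.add_mem (O.mul_mem (hD2 _ (hg ρ)) hyO)
      (O.mul_mem (O.natCast_mem _) (hg ρ)), ?_⟩
    have h1 : y ^ ρ = y * y ^ (ρ - 1) := by
      rw [← pow_succ', Nat.sub_add_cancel hρ1]
    rw [h1]
    ring
  have hunit : ¬ NU O ((ρ : E) * g ρ) := by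
    intro hnu
    obtain ⟨α, hα, β, hβ, hab⟩ := hP.gen _ hnu
    refine hnot (hres (c + 1) (by omega) ?_ θ0 hθ0)
    rw [hr2, hD2q, hab, ← hcρ']
    refine ⟨D2 A0 + α * y ^ (ρ - 1), O.add_mem (hD2 _ hA0O) (O.mul_mem hα (O.pow_mem hyO _)),
      D2 (g ρ) + β, O.add_mem (hD2 _ (hg ρ)) hβ, ?_⟩
    have h1 : y ^ ρ = y * y ^ (ρ - 1) := by
      rw [← pow_succ', Nat.sub_add_cancel hρ1]
    rw [h1]
    ring
  by_contra hcon
  have hc2 : ρ ≤ c'' := by omega
  exact hA2 ρ hρ1 le_rfl hunit (Ox_mono hP'.pv.1 hc2 (hRs'.1 _ hθ2))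

end Pool.Agent.W337.WA.A1
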